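import Mathlib
import Pool.Agent.Y494.PK.Stm

/-!
Directed paths of the second pattern, clean part.
-/

namespace Pool.Agent.Y641.PK

open Classical
open Pool.Agent.Y494.PK

variable {V : Type}

/-- directed path of the second pattern at `a`, all lows clean -/
structure AA (G : SimpleGraph V) (r : ℕ) (S L : Set V) (u w : Fin (r + 1) → V)
    (a : Fin (r + 1)) : Prop where
  dp : IsDP G (r + 1) u w
  pat : Pat2 S L u w a
  clp : Clp G (r + 1) S L (u a) (w a)
  cu : ∀ j, u j ∈ L → Cl G (r + 1) S L (u j)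
  cw : ∀ j, w j ∈ L → Cl G (r + 1) S L (w j)

lemma hgadj [Fintype V] {G : SimpleGraph V} {l : ℕ} {S L : Set V} {a b x : V} (ha : a ∈ S)
    (hb : b ∈ S) (hab : a ≠ b) (hx : Cl G l S L x) (hax : G.Adj a x) (hbx : G.Adj b x) :
    (HG G l S L).Adj a b := by
  refine ⟨hab, ha, hb, hx.2.trans (Set.ncard_le_ncard ?_ (Set.toFinite _))⟩
  rintro y ⟨hy, hT⟩
  have h1 : a ∈ Ty G S x := ⟨ha, hax⟩
  have h2 : b ∈ Ty G S x := ⟨hb, hbx⟩
  rw [← hT] at h1 h2
  exact ⟨hy, h1.2, h2.2⟩

lemma skel1 {G : SimpleGraph V} {l : ℕ} {S L : Set V} {m : ℕ} (hm : 1 ≤ m) (h : Fin m → V)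
    (hi : Function.Injective h) (hS : ∀ j, h j ∈ S)
    (hc : ∀ j k : Fin m, (k : ℕ) = j + 1 → (HG G l S L).Adj (h j) (h k)) :
    Skel G l S L h (fun _ => 1) 1 :=
  ⟨hm, hi, hS, fun j k hjk => Or.inr (Or.inl ⟨rfl, hc j k hjk⟩), Or.inl rfl⟩

lemma skn1 {m : ℕ} (hm : 1 ≤ m) : SkN m (fun _ => 1) 1 = 2 * m := by
  unfold SkN
  simp
  omega

lemma clp_symm {G : SimpleGraph V} {l : ℕ} {S L : Set V} {x z : V} (h : Clp G l S L x z) :
    Clp G l S L z x := by
  obtain ⟨h1, h2, h3, P, Z, h4, h5⟩ := h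
  refine ⟨h2, h1, h3.symm, Z, P, fun i => ?_, fun i j hij => ?_⟩
  · obtain ⟨a, b, c, d, e⟩ := h4 i
    exact ⟨b, a, c.symm, e, d⟩
  · exact ⟨(h5 i j hij).2.1, (h5 i j hij).1, (h5 j i hij.symm).2.2.symm⟩

lemma AA.rev {G : SimpleGraph V} {r : ℕ} {S L : Set V} {u w : Fin (r + 1) → V} {a : Fin (r + 1)}
    (h : AA G r S L u w a) : AA G r S L (w ∘ Fin.rev) (u ∘ Fin.rev) (Fin.rev a) := by
  refine ⟨⟨?_, ?_, ?_, ?_, ?_⟩, ?_, ?_, ?_, ?_⟩
  · exact h.dp.winj.comp Fin.rev_injective
  · exact h.dp.uinj.comp Fin.rev_injective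
  · intro i j
    exact (h.dp.uw _ _).symm
  · intro i
    exact (h.dp.mat _).symm
  · intro i j hij
    refine (h.dp.con (Fin.rev j) (Fin.rev i) ?_).symm
    have := j.isLt
    simp only [Fin.val_rev]
    omega
  · intro j
    have hj := h.pat (Fin.rev j)
    have := j.isLt
    have := a.isLt
    simp only [Fin.val_rev] at hj ⊢
    refine ⟨fun h1 => (hj.2.2 (by omega)).symm, fun h1 => (hj.2.1 (by omega)).symm,
      fun h1 => (hj.1 (by omega)).symm⟩
  · have := clp_symm h.clp
    simpa [Function.comp, Fin.rev_rev] using this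
  · intro j hj
    exact h.cw _ hj
  · intro j hj
    exact h.cu _ hj

/-- the map for the pair at the beginning -/
def f0 {r : ℕ} (p : (Fin (r + 1) → V) × (Fin (r + 1) → V)) :
    (Fin (r + 1) → V) × (Fin r → V) :=
  (Fin.cons (p.1 0) (fun j : Fin r => p.2 j.succ), fun j : Fin r => p.1 j.succ)

lemma f0_mem {G : SimpleGraph V} {r : ℕ} {S L : Set V} {u w : Fin (r + 1) → V}
    (h : AA G r S L u w 0) : f0 (u, w) ∈ Ec G r S L := by
  have hp := h.pat
  refine ⟨?_, ?_, ?_, ?_, ?_, ?_, ?_⟩
  · show Function.Injective (Fin.cons (u 0) (fun j : Fin r => w j.succ) : Fin (r + 1) → V)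
    rw [Fin.cons_injective_iff]
    refine ⟨?_, h.dp.winj.comp (Fin.succ_injective _)⟩
    rintro ⟨j, hj⟩
    exact h.dp.uw _ _ hj.symm
  · exact h.dp.uinj.comp (Fin.succ_injective _)
  · intro j
    refine Fin.cases ?_ (fun j => ?_) j
    · exact h.cu 0 ((hp 0).2.1 rfl).1
    · exact h.cw _ ((hp j.succ).2.2 (by simp)).2
  · intro j
    exact ((hp j.succ).2.2 (by simp)).1
  · intro j
    exact h.dp.mat j.succ
  · intro j k hjk
    exact (h.dp.con j.succ k.succ (by simp; omega)).symm
  · refine ⟨w 0, h.clp, ?_, ?_⟩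
    · intro j
      refine Fin.cases ?_ (fun j => ?_) j
      · exact (h.dp.uw _ _).symm
      · intro hh
        exact (Fin.succ_ne_zero j) (h.dp.winj hh).symm
    · intro j hj
      exact (h.dp.con 0 j.succ (by simp; omega)).symm

/-- the set for the pair at the beginning -/
def E0 (G : SimpleGraph V) (r : ℕ) (S L : Set V) :
    Set ((Fin (r + 1) → V) × (Fin (r + 1) → V)) := {p | AA G r S L p.1 p.2 0}

lemma uniq0 [Fintype V] {G : SimpleGraph V} {r : ℕ} {S L : Set V} (hE : Env G (r + 1) S L)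
    (hQ : S_CAPQ) {u w w' : Fin (r + 1) → V} (h : AA G r S L u w 0) (h' : AA G r S L u w' 0) :
    w' 0 = w 0 := by
  by_contra hne
  have hr : 3 ≤ r := by have := hE.hl; omega
  have hp := h.pat
  have hu0 : u 0 ∈ L := ((hp 0).2.1 rfl).1
  have hw0 : w 0 ∈ L := ((hp 0).2.1 rfl).2
  have hw0' : w' 0 ∈ L := ((h'.pat 0).2.1 rfl).2
  have hS : ∀ j : Fin r, u j.succ ∈ S := fun j => ((hp j.succ).2.2 (by simp)).1
  have sk : Skel G (r + 1) S L (fun j : Fin r => u j.succ) (fun _ => 1) 1 := by
    refine skel1 (by omega) _ (h.dp.uinj.comp (Fin.succ_injective _)) hS ?_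
    intro j k hjk
    have hne : u j.succ ≠ u k.succ := by
      intro hh
      have := Fin.succ_injective _ (h.dp.uinj hh)
      rw [this] at hjk
      omega
    exact hgadj (hS j) (hS k) hne (h.cw j.succ ((hp j.succ).2.2 (by simp)).2)
      (h.dp.mat j.succ) (h.dp.con j.succ k.succ (by simp; omega)).symm
  have key := hQ V G (r + 1) S L hE r _ _ _ sk [w' 0, u 0, w 0] ?_ ?_ ?_ ?_
  · rw [skn1 (by omega)] at key
    simp at key
    omega
  · refine ⟨?_, ?_⟩
    · have a1 : w' 0 ≠ u 0 := (h'.dp.uw 0 0).symm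
      have a2 : u 0 ≠ w 0 := h.dp.uw 0 0
      simp [a1, a2, hne]
    · have a1 : G.Adj (w' 0) (u 0) := (h'.dp.mat 0).symm
      have a2 : G.Adj (u 0) (w 0) := h.dp.mat 0
      simp [List.isChain_cons_cons, a1, a2]
  · intro v hv
    rintro ⟨j, hj⟩
    have hvS : v ∈ S := by rw [← hj]; exact hS j
    have hvL : v ∈ L := by
      simp at hv
      rcases hv with rfl | rfl | rfl
      · exact hw0'
      · exact hu0
      · exact hw0
    exact hE.dis v hvS hvL
  · intro v hv j hj
    simp at hv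
    subst hv
    exact h.dp.con 0 j.succ (by simp; omega)
  · rw [skn1 (by omega)]
    simp
    omega

lemma f0_inj [Fintype V] {G : SimpleGraph V} {r : ℕ} {S L : Set V} (hE : Env G (r + 1) S L)
    (hQ : S_CAPQ) : Set.InjOn f0 (E0 G r S L) := by
  rintro ⟨u, w⟩ h ⟨u', w'⟩ h' he
  have h : AA G r S L u w 0 := h
  have h' : AA G r S L u' w' 0 := h'
  have e1 := congrArg Prod.fst he
  have e2 := congrArg Prod.snd he
  simp only [f0] at e1 e2
  have hu : u = u' := by
    funext j
    refine Fin.cases ?_ (fun j => ?_) j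
    · simpa using congrFun e1 0
    · exact congrFun e2 j
  subst hu
  have hw : w = w' := by
    funext j
    refine Fin.cases ?_ (fun j => ?_) j
    · exact uniq0 hE hQ h' h
    · simpa using congrFun e1 j.succ
  rw [hw]

lemma E0_le [Fintype V] {G : SimpleGraph V} {r : ℕ} {S L : Set V} (hE : Env G (r + 1) S L)
    (hQ : S_CAPQ) : (E0 G r S L).ncard ≤ (Ec G r S L).ncard :=
  Set.ncard_le_ncard_of_injOn f0 (fun p hp => f0_mem (u := p.1) (w := p.2) hp) (f0_inj hE hQ)
    (Set.toFinite _)

/-! ### The pair in the middle -/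

/-- hubs -/
def fh {r : ℕ} (u w : Fin (r + 1) → V) (a : Fin r) (j : Fin r) : V :=
  if (j : ℕ) < a then w j.castSucc else u j.succ

/-- lows -/
def fy {r : ℕ} (u w : Fin (r + 1) → V) (a : Fin r) : Fin (r + 1) → V :=
  Fin.cons (u a.castSucc) (fun j : Fin r => if (j : ℕ) < a then u j.castSucc else w j.succ)

lemma fm_mem {G : SimpleGraph V} {r : ℕ} {S L : Set V} {u w : Fin (r + 1) → V} {a : Fin r}
    (ha : 1 ≤ (a : ℕ)) (h : AA G r S L u w a.castSucc) :
    (fy u w a, fh u w a, a) ∈ Mc G r S L := by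
  have hp := h.pat
  have har := a.isLt
  have hui := h.dp.uinj
  have hwi := h.dp.winj
  have huw := h.dp.uw
  have hlt : ∀ j : Fin r, (j : ℕ) < a → u j.castSucc ∈ L ∧ w j.castSucc ∈ S := fun j hj =>
    (hp j.castSucc).1 (by simpa using hj)
  have hge : ∀ j : Fin r, ¬ (j : ℕ) < a → u j.succ ∈ S ∧ w j.succ ∈ L := fun j hj =>
    (hp j.succ).2.2 (by simp; omega)
  have hmid : u a.castSucc ∈ L ∧ w a.castSucc ∈ L := (hp a.castSucc).2.1 rfl
  refine ⟨?_, ?_, ?_, ?_, ha, a.isLt, ?_, ?_, ?_, ?_⟩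
  · show Function.Injective (fy u w a)
    unfold fy
    rw [Fin.cons_injective_iff]
    refine ⟨?_, ?_⟩
    · rintro ⟨j, hj⟩
      by_cases hja : (j : ℕ) < a
      · simp only [hja, if_true] at hj
        have := hui hj
        have := congrArg Fin.val this
        simp at this
        omega
      · simp only [hja, if_false] at hj
        exact huw _ _ hj.symm
    · intro j k hjk
      by_cases hja : (j : ℕ) < a <;> by_cases hka : (k : ℕ) < a <;>
        simp only [hja, hka, if_true, if_false] at hjk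
      · exact Fin.castSucc_injective _ (hui hjk)
      · exact absurd hjk (huw _ _)
      · exact absurd hjk.symm (huw _ _)
      · exact Fin.succ_injective _ (hwi hjk)
  · intro j k hjk
    show j = k
    have hjk : fh u w a j = fh u w a k := hjk
    unfold fh at hjk
    by_cases hja : (j : ℕ) < a <;> by_cases hka : (k : ℕ) < a <;>
      simp only [hja, hka, if_true, if_false] at hjk
    · exact Fin.castSucc_injective _ (hwi hjk)
    · exact absurd hjk.symm (huw _ _)
    · exact absurd hjk (huw _ _)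
    · exact Fin.succ_injective _ (hui hjk)
  · intro j
    refine Fin.cases ?_ (fun j => ?_) j
    · exact h.cu _ hmid.1
    · show Cl G (r + 1) S L (if (j : ℕ) < a then u j.castSucc else w j.succ)
      by_cases hja : (j : ℕ) < a
      · rw [if_pos hja]
        exact h.cu _ (hlt j hja).1
      · rw [if_neg hja]
        exact h.cw _ (hge j hja).2
  · intro j
    show (if (j : ℕ) < a then w j.castSucc else u j.succ) ∈ S
    by_cases hja : (j : ℕ) < a
    · rw [if_pos hja]
      exact (hlt j hja).2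
    · rw [if_neg hja]
      exact (hge j hja).1
  · intro j
    show G.Adj (if (j : ℕ) < a then w j.castSucc else u j.succ)
      (if (j : ℕ) < a then u j.castSucc else w j.succ)
    by_cases hja : (j : ℕ) < a
    · rw [if_pos hja, if_pos hja]
      exact (h.dp.mat _).symm
    · rw [if_neg hja, if_neg hja]
      exact h.dp.mat _
  · intro j k hjk hka
    show G.Adj (if (j : ℕ) < a then w j.castSucc else u j.succ)
      (if (k : ℕ) < a then u k.castSucc else w k.succ)
    have hka : (k : ℕ) < a := hka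
    rw [if_pos (by omega), if_pos hka]
    exact h.dp.con _ _ (by simpa using hjk)
  · intro j k hjk haj
    show G.Adj (if (k : ℕ) < a then w k.castSucc else u k.succ)
      (if (j : ℕ) < a then u j.castSucc else w j.succ)
    have haj : (a : ℕ) ≤ j := haj
    rw [if_neg (by omega), if_neg (by omega)]
    exact (h.dp.con _ _ (by simp; omega)).symm
  · refine ⟨w a.castSucc, h.clp, ?_, ?_, ?_⟩
    · intro j
      refine Fin.cases ?_ (fun j => ?_) j
      · exact (huw _ _).symm
      · show w a.castSucc ≠ (if (j : ℕ) < a then u j.castSucc else w j.succ)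
        by_cases hja : (j : ℕ) < a
        · rw [if_pos hja]
          exact (huw _ _).symm
        · rw [if_neg hja]
          intro hh
          have := congrArg Fin.val (hwi hh)
          simp at this
          omega
    · intro j hja
      show G.Adj (if (j : ℕ) < a then w j.castSucc else u j.succ) (u a.castSucc)
      have hja : (j : ℕ) + 1 = a := hja
      rw [if_pos (by omega)]
      exact h.dp.con _ _ (by simp; omega)
    · intro j hja
      show G.Adj (if (j : ℕ) < a then w j.castSucc else u j.succ) (w a.castSucc)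
      have hja : (j : ℕ) = a := hja
      rw [if_neg (by omega)]
      exact (h.dp.con _ _ (by simp; omega)).symm

/-- the low after the pair is determined -/
def F1 (G : SimpleGraph V) {r : ℕ} (L : Set V) (u w : Fin (r + 1) → V) (a : Fin r) : Prop :=
  ∀ z ∈ L, G.Adj (u a.castSucc) z → G.Adj (u a.succ) z → z = w a.castSucc

/-- the set for the pair in the middle -/
def EM (G : SimpleGraph V) (r : ℕ) (S L : Set V) :
    Set ((Fin (r + 1) → V) × (Fin (r + 1) → V) × Fin r) :=
  {p | 1 ≤ (p.2.2 : ℕ) ∧ AA G r S L p.1 p.2.1 p.2.2.castSucc ∧ F1 G L p.1 p.2.1 p.2.2}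

/-- the map for the pair in the middle -/
def fm {r : ℕ} (p : (Fin (r + 1) → V) × (Fin (r + 1) → V) × Fin r) :
    (Fin (r + 1) → V) × (Fin r → V) × Fin r :=
  (fy p.1 p.2.1 p.2.2, fh p.1 p.2.1 p.2.2, p.2.2)

lemma fm_inj {G : SimpleGraph V} {r : ℕ} {S L : Set V} : Set.InjOn fm (EM G r S L) := by
  rintro ⟨u, w, a⟩ h ⟨u', w', a'⟩ h' he
  obtain ⟨ha1, h, hF⟩ : 1 ≤ (a : ℕ) ∧ AA G r S L u w a.castSucc ∧ F1 G L u w a := h
  obtain ⟨_, h', _⟩ : 1 ≤ (a' : ℕ) ∧ AA G r S L u' w' a'.castSucc ∧ F1 G L u' w' a' := h'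
  have e1 : fy u w a = fy u' w' a' := congrArg Prod.fst he
  have e2 : fh u w a = fh u' w' a' := congrArg (fun q => q.2.1) he
  have e3 : a = a' := congrArg (fun q => q.2.2) he
  subst e3
  have hy0 : u a.castSucc = u' a.castSucc := congrFun e1 0
  have hys : ∀ j : Fin r, (if (j : ℕ) < a then u j.castSucc else w j.succ) =
      (if (j : ℕ) < a then u' j.castSucc else w' j.succ) := fun j => congrFun e1 j.succ
  have hhs : ∀ j : Fin r, (if (j : ℕ) < a then w j.castSucc else u j.succ) =
      (if (j : ℕ) < a then w' j.castSucc else u' j.succ) := fun j => congrFun e2 j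
  have hul : ∀ j : Fin r, (j : ℕ) < a → u j.castSucc = u' j.castSucc := fun j hj => by
    simpa [hj] using hys j
  have hwl : ∀ j : Fin r, (j : ℕ) < a → w j.castSucc = w' j.castSucc := fun j hj => by
    simpa [hj] using hhs j
  have hur : ∀ j : Fin r, ¬ (j : ℕ) < a → u j.succ = u' j.succ := fun j hj => by
    simpa [hj] using hhs j
  have hwr : ∀ j : Fin r, ¬ (j : ℕ) < a → w j.succ = w' j.succ := fun j hj => by
    simpa [hj] using hys j
  have hu : u = u' := by
    funext j
    rcases lt_trichotomy (j : ℕ) (a : ℕ) with hj | hj | hj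
    · exact hul ⟨j, by omega⟩ hj
    · have : j = a.castSucc := Fin.ext hj
      rw [this]
      exact hy0
    · have := hur ⟨(j : ℕ) - 1, by omega⟩ (by simp; omega)
      have e : (⟨(j : ℕ) - 1, by omega⟩ : Fin r).succ = j := Fin.ext (by simp; omega)
      rwa [e] at this
  subst hu
  have hw : w = w' := by
    funext j
    rcases lt_trichotomy (j : ℕ) (a : ℕ) with hj | hj | hj
    · exact hwl ⟨j, by omega⟩ hj
    · have hja : j = a.castSucc := Fin.ext hj
      rw [hja]
      refine (hF _ ((h'.pat a.castSucc).2.1 rfl).2 (h'.dp.mat _) ?_).symm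
      exact (h'.dp.con _ _ (by simp)).symm
    · have := hwr ⟨(j : ℕ) - 1, by omega⟩ (by simp; omega)
      have e : (⟨(j : ℕ) - 1, by omega⟩ : Fin r).succ = j := Fin.ext (by simp; omega)
      rwa [e] at this
  rw [hw]

lemma EM_le [Fintype V] {G : SimpleGraph V} {r : ℕ} {S L : Set V} :
    (EM G r S L).ncard ≤ (Mc G r S L).ncard :=
  Set.ncard_le_ncard_of_injOn fm
    (fun p hp => fm_mem (u := p.1) (w := p.2.1) (a := p.2.2) hp.1 hp.2.1) fm_inj
    (Set.toFinite _)

/-- one of the two lows of the pair is determined -/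
lemma alt [Fintype V] {G : SimpleGraph V} {r : ℕ} {S L : Set V} (hE : Env G (r + 1) S L)
    (hM : S_EMB) (hQ : S_CAPQ) {u w : Fin (r + 1) → V} {a : Fin (r + 1)} (ha : 1 ≤ (a : ℕ))
    (har : (a : ℕ) < r) (h : AA G r S L u w a) :
    (∀ z ∈ L, G.Adj (u a) z → (∀ k : Fin (r + 1), (k : ℕ) = a + 1 → G.Adj (u k) z) → z = w a) ∨
    (∀ x ∈ L, G.Adj (w a) x → (∀ k : Fin (r + 1), (a : ℕ) = k + 1 → G.Adj (w k) x) → x = u a) := by
  by_contra hcon
  push Not at hcon
  obtain ⟨⟨z', hz'L, hz'u, hz'k, hz'ne⟩, ⟨x', hx'L, hx'w, hx'k, hx'ne⟩⟩ := hcon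
  have hp := h.pat
  have hui := h.dp.uinj
  have hwi := h.dp.winj
  have huw := h.dp.uw
  have hmid : u a ∈ L ∧ w a ∈ L := (hp a).2.1 rfl
  have hlt : ∀ j : Fin (r + 1), (j : ℕ) < a → u j ∈ L ∧ w j ∈ S := fun j hj => (hp j).1 hj
  have hgt : ∀ j : Fin (r + 1), (a : ℕ) < j → u j ∈ S ∧ w j ∈ L := fun j hj => (hp j).2.2 hj
  -- left skeleton
  set hl : Fin (a : ℕ) → V := fun j => w ⟨(a : ℕ) - 1 - j, by omega⟩ with hhl
  set hr : Fin (r - (a : ℕ)) → V := fun j => u ⟨(a : ℕ) + 1 + j, by omega⟩ with hhr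
  have hlS : ∀ j, hl j ∈ S := fun j => (hlt _ (by simp only; omega)).2
  have hrS : ∀ j, hr j ∈ S := fun j => (hgt _ (by simp only; omega)).1
  have hli : Function.Injective hl := by
    intro j k hjk
    have := congrArg Fin.val (hwi hjk)
    simp only at this
    exact Fin.ext (by omega)
  have hri : Function.Injective hr := by
    intro j k hjk
    have := congrArg Fin.val (hui hjk)
    simp only at this
    exact Fin.ext (by omega)
  have skl : Skel G (r + 1) S L hl (fun _ => 1) 1 := by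
    refine skel1 ha hl hli hlS ?_
    intro j k hjk
    have hne : hl j ≠ hl k := fun hh => by
      have := congrArg Fin.val (hli hh)
      omega
    have hj := j.isLt
    have hk := k.isLt
    refine hgadj (hlS j) (hlS k) hne
      (h.cu ⟨(a : ℕ) - 1 - j, by omega⟩ (hlt _ (by simp only; omega)).1)
      (h.dp.mat _).symm (h.dp.con _ _ (by simp only; omega))
  have skr : Skel G (r + 1) S L hr (fun _ => 1) 1 := by
    refine skel1 (by omega) hr hri hrS ?_
    intro j k hjk
    have hne : hr j ≠ hr k := fun hh => by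
      have := congrArg Fin.val (hri hh)
      omega
    have hj := j.isLt
    have hk := k.isLt
    refine hgadj (hrS j) (hrS k) hne
      (h.cw ⟨(a : ℕ) + 1 + j, by omega⟩ (hgt _ (by simp only; omega)).2)
      (h.dp.mat _) (h.dp.con _ _ (by simp only; omega)).symm
  have nl := skn1 (m := (a : ℕ)) ha
  have nr := skn1 (m := r - (a : ℕ)) (by omega)
  obtain ⟨p1, hp1, hp1l, hp1h, hp1v⟩ := hM V G (r + 1) S L hE _ hl _ _ skl
    {x', w a, u a, z'} (by
      rw [nl]
      have : ({x', w a, u a, z'} : Finset V).card ≤ 4 := Finset.card_le_four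
      omega)
  rw [nl] at hp1l
  have hhead : p1.head? = some (w ⟨(a : ℕ) - 1, by omega⟩) := by
    have := hp1h ⟨0, by omega⟩ rfl
    rw [this]
    rfl
  have hlast : p1.reverse.getLast? = some (w ⟨(a : ℕ) - 1, by omega⟩) := by
    rw [List.getLast?_reverse]
    exact hhead
  have hz'r : G.Adj z' (u ⟨(a : ℕ) + 1, by omega⟩) := (hz'k _ rfl).symm
  have hx'l : G.Adj (w ⟨(a : ℕ) - 1, by omega⟩) x' := hx'k _ (by simp only; omega)
  have hzw : G.Adj (u a) (w a) := h.dp.mat a
  have hca : G.Adj (w ⟨(a : ℕ) - 1, by omega⟩) (u a) := h.dp.con _ _ (by simp only; omega)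
  have hcz : G.Adj (w a) (u ⟨(a : ℕ) + 1, by omega⟩) := h.dp.con _ _ rfl
  -- generic: a middle list
  have gen : ∀ (t : List V) (t0 : V) (t1 : V), t.Nodup → t.IsChain G.Adj → t.head? = some t0 →
      t.getLast? = some t1 → (∀ v ∈ t, v = x' ∨ v = w a ∨ v = u a ∨ v = z') →
      G.Adj (w ⟨(a : ℕ) - 1, by omega⟩) t0 → G.Adj t1 (u ⟨(a : ℕ) + 1, by omega⟩) →
      3 ≤ t.length → t.length ≤ 4 → False := by
    intro t t0 t1 htn htc hth htl htv had1 had2 hlen hlen4
    have htL : ∀ v ∈ t, v ∈ L := by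
      intro v hv
      rcases htv v hv with rfl | rfl | rfl | rfl
      · exact hx'L
      · exact hmid.2
      · exact hmid.1
      · exact hz'L
    have hdis : ∀ v ∈ p1, v ∉ t := by
      intro v hv hvt
      rcases hp1v v hv with ⟨j, hj⟩ | ⟨_, hvF⟩
      · exact hE.dis v (hj ▸ hlS j) (htL v hvt)
      · apply hvF
        have := htv v hvt
        simp only [Finset.mem_insert, Finset.mem_singleton]
        exact this
    have key := hQ V G (r + 1) S L hE _ hr _ _ skr (p1.reverse ++ t) ?_ ?_ ?_ ?_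
    · rw [nr] at key
      simp only [List.length_append, List.length_reverse, hp1l] at key
      omega
    · refine ⟨?_, ?_⟩
      · rw [List.nodup_append]
        refine ⟨List.nodup_reverse.mpr hp1.1, htn, ?_⟩
        intro v hv v' hv' hvv
        subst hvv
        exact hdis v (List.mem_reverse.mp hv) hv'
      · rw [List.isChain_append]
        refine ⟨?_, htc, ?_⟩
        · rw [List.isChain_reverse]
          refine hp1.2.imp ?_
          intro x y hxy
          exact hxy.symm
        · intro v hv v' hv'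
          rw [hlast] at hv
          rw [hth] at hv'
          simp only [Option.mem_def, Option.some.injEq] at hv hv'
          rw [← hv, ← hv']
          exact had1
    · intro v hv
      rintro ⟨j, hj⟩
      have hvS : v ∈ S := by rw [← hj]; exact hrS j
      rcases List.mem_append.mp hv with hv | hv
      · rw [List.mem_reverse] at hv
        rcases hp1v v hv with ⟨i, hi⟩ | ⟨hvL, _⟩
        · exact huw _ _ (hj.trans hi.symm)
        · exact hE.dis v hvS hvL
      · exact hE.dis v hvS (htL v hv)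
    · intro v hv j hj
      have hte : (p1.reverse ++ t).getLast? = some t1 := by
        rw [List.getLast?_append, htl]
        rfl
      rw [hte] at hv
      simp only [Option.some.injEq] at hv
      rw [← hv]
      have : hr j = u ⟨(a : ℕ) + 1, by omega⟩ := by
        simp only [hhr, hj, Nat.add_zero]
      rw [this]
      exact had2
    · rw [nr]
      simp only [List.length_append, List.length_reverse, hp1l]
      omega
  have b1 : x' ≠ w a := hx'w.ne'
  have b2 : z' ≠ u a := hz'u.ne'
  have b3 : w a ≠ u a := hzw.ne'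
  by_cases hxz : x' = z'
  · refine gen [u a, x', w a] (u a) (w a) ?_ ?_ rfl rfl ?_ hca hcz (by simp) (by simp)
    · simp [b1, b3.symm, hx'ne.symm]
    · simp only [List.isChain_cons_cons, List.isChain_singleton, and_true]
      exact ⟨hxz ▸ hz'u, hx'w.symm⟩
    · intro v hv
      simp at hv
      tauto
  · refine gen [x', w a, u a, z'] x' z' ?_ ?_ rfl rfl ?_ hx'l hz'r (by simp) (by simp)
    · simp [b1, b2.symm, b3, hx'ne, hz'ne.symm, hxz]
    · simp only [List.isChain_cons_cons, List.isChain_singleton, and_true]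
      exact ⟨hx'w.symm, hzw.symm, hz'u⟩
    · intro v hv
      simp at hv
      tauto

/-- reversal -/
def rv {r : ℕ} (p : (Fin (r + 1) → V) × (Fin (r + 1) → V)) :
    (Fin (r + 1) → V) × (Fin (r + 1) → V) := (p.2 ∘ Fin.rev, p.1 ∘ Fin.rev)

lemma rv_rv {r : ℕ} (p : (Fin (r + 1) → V) × (Fin (r + 1) → V)) : rv (rv p) = p := by
  rcases p with ⟨u, w⟩
  unfold rv
  simp [Function.comp_def, Fin.rev_rev]

/-- forget the place -/
def pr {r : ℕ} (p : (Fin (r + 1) → V) × (Fin (r + 1) → V) × Fin r) :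
    (Fin (r + 1) → V) × (Fin (r + 1) → V) := (p.1, p.2.1)

theorem tr2 (hM : S_EMB) (hQ : S_CAPQ) : S_TR2 := by
  intro V _ G r S L hE
  have hr : 3 ≤ r := by have := hE.hl; omega
  have hsub : {p : (Fin (r + 1) → V) × (Fin (r + 1) → V) | IsDP G (r + 1) p.1 p.2 ∧
      ∃ a : Fin (r + 1), Pat2 S L p.1 p.2 a ∧ Clp G (r + 1) S L (p.1 a) (p.2 a) ∧
        (∀ j, p.1 j ∈ L → Cl G (r + 1) S L (p.1 j)) ∧
        (∀ j, p.2 j ∈ L → Cl G (r + 1) S L (p.2 j))} ⊆
      (E0 G r S L ∪ rv '' E0 G r S L) ∪ (pr '' EM G r S L ∪ rv '' (pr '' EM G r S L)) := by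
    rintro ⟨u, w⟩ ⟨h1, a, h2, h3, h4, h5⟩
    have h : AA G r S L u w a := ⟨h1, h2, h3, h4, h5⟩
    have hal := a.isLt
    by_cases ha0 : (a : ℕ) = 0
    · left; left
      have : a = 0 := Fin.ext ha0
      subst this
      exact h
    by_cases har : (a : ℕ) = r
    · left; right
      refine ⟨rv (u, w), ?_, rv_rv _⟩
      have hh := h.rev
      have : Fin.rev a = 0 := Fin.ext (by simp [Fin.val_rev, har])
      rw [this] at hh
      exact hh
    · right
      rcases alt hE hM hQ (by omega) (by omega) h with hF | hF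
      · left
        refine ⟨(u, w, ⟨a, by omega⟩), ⟨?_, ?_, ?_⟩, rfl⟩
        · show 1 ≤ (a : ℕ)
          omega
        · exact h
        · intro z hz hz1 hz2
          refine hF z hz hz1 ?_
          intro k hk
          have : k = (⟨a, by omega⟩ : Fin r).succ := Fin.ext (by simp [hk])
          rw [this]
          exact hz2
      · right
        refine ⟨rv (u, w), ⟨(w ∘ Fin.rev, u ∘ Fin.rev, ⟨r - a, by omega⟩), ⟨?_, ?_, ?_⟩, rfl⟩,
          rv_rv _⟩
        · show 1 ≤ r - (a : ℕ)
          omega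
        · have hh := h.rev
          have : Fin.rev a = (⟨r - (a : ℕ), by omega⟩ : Fin r).castSucc :=
            Fin.ext (by simp [Fin.val_rev])
          rw [this] at hh
          exact hh
        · have e1 : Fin.rev (⟨r - (a : ℕ), by omega⟩ : Fin r).castSucc = a :=
            Fin.ext (by simp [Fin.val_rev]; omega)
          intro z hz hz1 hz2
          have hz1 : G.Adj (w (Fin.rev (⟨r - (a : ℕ), by omega⟩ : Fin r).castSucc)) z := hz1
          have hz2 : G.Adj (w (Fin.rev (⟨r - (a : ℕ), by omega⟩ : Fin r).succ)) z := hz2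
          show z = u (Fin.rev (⟨r - (a : ℕ), by omega⟩ : Fin r).castSucc)
          rw [e1] at hz1 ⊢
          refine hF z hz hz1 ?_
          intro k hk
          have : k = Fin.rev (⟨r - (a : ℕ), by omega⟩ : Fin r).succ :=
            Fin.ext (by simp [Fin.val_rev]; omega)
          rw [this]
          exact hz2
  have hE0 := E0_le hE hQ
  have hEM := EM_le (G := G) (r := r) (S := S) (L := L)
  have c1 : (rv '' E0 G r S L).ncard ≤ (E0 G r S L).ncard := Set.ncard_image_le (Set.toFinite _)
  have c2 : (pr '' EM G r S L).ncard ≤ (EM G r S L).ncard := Set.ncard_image_le (Set.toFinite _)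
  have c3 : (rv '' (pr '' EM G r S L)).ncard ≤ (pr '' EM G r S L).ncard :=
    Set.ncard_image_le (Set.toFinite _)
  refine (Set.ncard_le_ncard hsub (Set.toFinite _)).trans ?_
  refine (Set.ncard_union_le _ _).trans ?_
  have d1 := Set.ncard_union_le (E0 G r S L) (rv '' E0 G r S L)
  have d2 := Set.ncard_union_le (pr '' EM G r S L) (rv '' (pr '' EM G r S L))
  omega

end Pool.Agent.Y641.PK
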