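import Mathlib
import Pool.Agent.Y494.PK.Stm2
import Pool.Agent.Y641.PK.TR2

/-!
Types of clean lows in configurations of the second kind.
-/

namespace Pool.Agent.Y641.PK

open Classical
open Pool.Agent.Y494.PK

variable {V : Type}

/-- insertion of a hub at position `s` -/
def ins {m : ℕ} (h : Fin m → V) (s : ℕ) (hs : s ≤ m) (h' : V) (i : Fin (m + 1)) : V :=
  if hi : (i : ℕ) < s then h ⟨i, by omega⟩ else
    if hi2 : (i : ℕ) = s then h' else h ⟨(i : ℕ) - 1, by omega⟩

lemma ins_lt {m : ℕ} {h : Fin m → V} {s : ℕ} {hs : s ≤ m} {h' : V} {i : Fin (m + 1)}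
    (hi : (i : ℕ) < s) : ins h s hs h' i = h ⟨i, by omega⟩ := by
  unfold ins
  rw [dif_pos hi]

lemma ins_eq {m : ℕ} {h : Fin m → V} {s : ℕ} {hs : s ≤ m} {h' : V} {i : Fin (m + 1)}
    (hi : (i : ℕ) = s) : ins h s hs h' i = h' := by
  unfold ins
  rw [dif_neg (by omega), dif_pos hi]

lemma ins_gt {m : ℕ} {h : Fin m → V} {s : ℕ} {hs : s ≤ m} {h' : V} {i : Fin (m + 1)}
    (hi : s < (i : ℕ)) : ins h s hs h' i = h ⟨(i : ℕ) - 1, by omega⟩ := by
  unfold ins
  rw [dif_neg (by omega), dif_neg (by omega)]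

lemma skelI {G : SimpleGraph V} {l : ℕ} {S L : Set V} {m : ℕ} (h : Fin m → V)
    (hinj : Function.Injective h) (hS : ∀ j, h j ∈ S) (s : ℕ) (hs : s ≤ m) (h' : V)
    (hS' : h' ∈ S) (hn : h' ∉ Set.range h) (c c' : ℕ → ℕ)
    (hlk : ∀ j k : Fin m, (k : ℕ) = j + 1 → Lk G l S L (c j) (h j) (h k))
    (hA : ∀ j, j + 1 < s → c' j = c j) (hB : ∀ j, s ≤ j → j + 1 < m → c' (j + 1) = c j)
    (hC : ∀ j : Fin m, (j : ℕ) + 1 = s → Lk G l S L (c' j) (h j) h')
    (hD : ∀ j : Fin m, (j : ℕ) = s → Lk G l S L (c' s) h' (h j)) :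
    Skel G l S L (ins h s hs h') c' 1 := by
  refine ⟨by omega, ?_, ?_, ?_, Or.inl rfl⟩
  · intro i j hij
    rcases lt_trichotomy (i : ℕ) s with hi | hi | hi <;>
      rcases lt_trichotomy (j : ℕ) s with hj | hj | hj
    · rw [ins_lt hi, ins_lt hj] at hij
      have := congrArg Fin.val (hinj hij)
      exact Fin.ext this
    · rw [ins_lt hi, ins_eq hj] at hij
      exact absurd ⟨_, hij⟩ hn
    · rw [ins_lt hi, ins_gt hj] at hij
      have := congrArg Fin.val (hinj hij)
      simp only at this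
      omega
    · rw [ins_eq hi, ins_lt hj] at hij
      exact absurd ⟨_, hij.symm⟩ hn
    · exact Fin.ext (by omega)
    · rw [ins_eq hi, ins_gt hj] at hij
      exact absurd ⟨_, hij.symm⟩ hn
    · rw [ins_gt hi, ins_lt hj] at hij
      have := congrArg Fin.val (hinj hij)
      simp only at this
      omega
    · rw [ins_gt hi, ins_eq hj] at hij
      exact absurd ⟨_, hij⟩ hn
    · rw [ins_gt hi, ins_gt hj] at hij
      have := congrArg Fin.val (hinj hij)
      simp only at this
      exact Fin.ext (by omega)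
  · intro j
    rcases lt_trichotomy (j : ℕ) s with hj | hj | hj
    · rw [ins_lt hj]; exact hS _
    · rw [ins_eq hj]; exact hS'
    · rw [ins_gt hj]; exact hS _
  · intro j k hjk
    have hkl := k.isLt
    rcases lt_trichotomy (k : ℕ) s with hk | hk | hk
    · rw [ins_lt hk, ins_lt (i := j) (by omega), hA j (by omega)]
      exact hlk ⟨j, by omega⟩ ⟨k, by omega⟩ hjk
    · rw [ins_eq hk, ins_lt (i := j) (by omega)]
      exact hC ⟨j, by omega⟩ (by simp only; omega)
    · rcases Nat.lt_or_ge s (j : ℕ) with hj | hj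
      · rw [ins_gt hj, ins_gt hk]
        have e := hB ((j : ℕ) - 1) (by omega) (by omega)
        have e2 : (j : ℕ) - 1 + 1 = j := by omega
        rw [e2] at e
        rw [e]
        exact hlk ⟨(j : ℕ) - 1, by omega⟩ ⟨(k : ℕ) - 1, by omega⟩ (by simp only; omega)
      · have hj' : (j : ℕ) = s := by omega
        rw [ins_eq hj', ins_gt hk, hj']
        exact hD ⟨(k : ℕ) - 1, by omega⟩ (by simp only; omega)

lemma sum_one_two (n b : ℕ) (hb : b < n) :
    ∑ j ∈ Finset.range n, (if j = b then 2 else 1) = n + 1 := by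
  have : ∀ j ∈ Finset.range n, (if j = b then 2 else 1) = 1 + (if j = b then 1 else 0) := by
    intro j _
    split_ifs <;> rfl
  rw [Finset.sum_congr rfl this, Finset.sum_add_distrib]
  simp [hb]

theorem sube (hQ : S_CAPQ) (h2 : S_CAP2) : S_SUBE := by
  intro V _ G r S L hE y h hc j h' hh'
  by_contra hn
  have hr : 3 ≤ r := by have := hE.hl; omega
  have hc : LVE G S L y h := hc
  obtain ⟨e', he1, he2, he3⟩ := hc.ex
  have hyL : ∀ j, y j ∈ L := fun j => (hc.ycl j).1
  have hHG : ∀ j k : Fin r, (k : ℕ) = j + 1 → (HG G (r + 1) S L).Adj (h j) (h k) := by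
    intro j k hjk
    have hne : h j ≠ h k := fun hh => by
      have := congrArg Fin.val (hc.hinj hh)
      omega
    exact hgadj (hc.hS j) (hc.hS k) hne (hc.ycl j.succ) (hc.mat j) (hc.rig j k hjk)
  revert hh'
  refine Fin.cases ?_ (fun s => ?_) j
  · intro hh'
    have sk : Skel G (r + 1) S L h (fun _ => 1) 1 := skel1 (by omega) h hc.hinj hc.hS hHG
    have hne1 : h' ≠ y 0 := hh'.2.ne
    have hne2 : y 0 ≠ e' := he1.2.2.1.ne
    have hne3 : h' ≠ e' := fun hh => hE.dis h' hh'.1 (hh ▸ he1.2.1)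
    have key := hQ V G (r + 1) S L hE r _ _ _ sk [h', y 0, e'] ?_ ?_ ?_ ?_
    · rw [skn1 (by omega)] at key
      simp at key
      omega
    · refine ⟨by simp [hne1, hne2, hne3], ?_⟩
      simp only [List.isChain_cons_cons, List.isChain_singleton, and_true]
      exact ⟨hh'.2, he1.2.2.1⟩
    · intro v hv
      rintro ⟨j, hj⟩
      simp at hv
      rcases hv with rfl | rfl | rfl
      · exact hn ⟨j, hj⟩
      · exact hE.dis _ (hj ▸ hc.hS j) (hyL 0)
      · exact hE.dis _ (hj ▸ hc.hS j) he1.2.1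
    · intro v hv j hj
      simp at hv
      subst hv
      exact (he3 j hj).symm
    · rw [skn1 (by omega)]
      simp
      omega
  · intro hh'
    have hsl := s.isLt
    have hne : ∀ k, h k ≠ h' := fun k hk => hn ⟨k, hk⟩
    have sk : Skel G (r + 1) S L (ins h (s + 1) (by omega) h') (fun _ => 1) 1 := by
      refine skelI h hc.hinj hc.hS _ _ h' hh'.1 hn (fun _ => 1) _ ?_ (fun _ _ => rfl)
        (fun _ _ _ => rfl) ?_ ?_
      · intro j k hjk
        exact Or.inr (Or.inl ⟨rfl, hHG j k hjk⟩)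
      · intro j hj
        have : j = s := Fin.ext (by omega)
        subst this
        exact Or.inr (Or.inl ⟨rfl, hgadj (hc.hS j) hh'.1 (hne j) (hc.ycl j.succ) (hc.mat j) hh'.2⟩)
      · intro j hj
        exact Or.inr (Or.inl ⟨rfl, hgadj hh'.1 (hc.hS j) (hne j).symm (hc.ycl s.succ) hh'.2
          (hc.rig s j hj)⟩)
    have key := h2 V G (r + 1) S L hE (r + 1) _ _ _ sk ?_ ?_
    · rw [skn1 (by omega)] at key
      omega
    · intro j hj
      rw [ins_lt (by omega)]
      exact ⟨e', y 0, clp_symm he1, hc.hS _, he3 _ (by simpa using hj)⟩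
    · rw [skn1 (by omega)]
      omega

theorem subm (h1 : S_CAP1) : S_SUBM := by
  intro V _ G r S L hE y h a hc j h' hh'
  by_contra hn
  have hr : 3 ≤ r := by have := hE.hl; omega
  have hc : LVM G S L y h (a : ℕ) := hc
  obtain ⟨z, he1, he2, he3, he4⟩ := hc.ex
  have hal := a.isLt
  have ha1 := hc.a1
  have hne : ∀ k, h k ≠ h' := fun k hk => hn ⟨k, hk⟩
  have hlk : ∀ j k : Fin r, (k : ℕ) = j + 1 →
      Lk G (r + 1) S L ((fun i : ℕ => if i = (a : ℕ) - 1 then 2 else 1) j) (h j) (h k) := by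
    intro j k hjk
    have hne : h j ≠ h k := fun hh => by
      have := congrArg Fin.val (hc.hinj hh)
      omega
    rcases lt_trichotomy (k : ℕ) (a : ℕ) with hk | hk | hk
    · have : (if (j : ℕ) = (a : ℕ) - 1 then 2 else 1) = 1 := by rw [if_neg (by omega)]
      refine Or.inr (Or.inl ⟨this, ?_⟩)
      exact hgadj (hc.hS j) (hc.hS k) hne (hc.ycl k.succ) (hc.lef j k hjk hk) (hc.mat k)
    · have : (if (j : ℕ) = (a : ℕ) - 1 then 2 else 1) = 2 := by rw [if_pos (by omega)]
      refine Or.inr (Or.inr ⟨this, ?_⟩)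
      exact ⟨y 0, z, he1, ⟨hc.hS j, he3 j (by omega)⟩, ⟨hc.hS k, he4 k hk⟩⟩
    · have : (if (j : ℕ) = (a : ℕ) - 1 then 2 else 1) = 1 := by rw [if_neg (by omega)]
      refine Or.inr (Or.inl ⟨this, ?_⟩)
      exact hgadj (hc.hS j) (hc.hS k) hne (hc.ycl j.succ) (hc.mat j) (hc.rig j k hjk (by omega))
  have cnt : ∀ b < r, SkN (r + 1) (fun i : ℕ => if i = b then 2 else 1) 1 = 2 * r + 3 := by
    intro b hb
    unfold SkN
    rw [Nat.add_sub_cancel, sum_one_two r b hb]
    omega
  have fin : ∀ (g : Fin (r + 1) → V) (b : ℕ), b < r →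
      Skel G (r + 1) S L g (fun i : ℕ => if i = b then 2 else 1) 1 → False := by
    intro g b hb sk
    have key := h1 V G (r + 1) S L hE (r + 1) _ _ _ sk (by rw [cnt b hb]; omega)
    rw [cnt b hb] at key
    omega
  revert hh'
  refine Fin.cases ?_ (fun s => ?_) j
  · intro hh'
    refine fin _ (a : ℕ) hal (skelI h hc.hinj hc.hS (a : ℕ) (by omega) h' hh'.1 hn
      (fun i : ℕ => if i = (a : ℕ) - 1 then 2 else 1) _ hlk
      ?_ ?_ ?_ ?_)
    · intro j hj
      rw [if_neg (by omega), if_neg (by omega)]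
    · intro j hj _
      rw [if_neg (by omega), if_neg (by omega)]
    · intro j hj
      have : (if (j : ℕ) = (a : ℕ) then 2 else 1) = 1 := by rw [if_neg (by omega)]
      refine Or.inr (Or.inl ⟨this, ?_⟩)
      exact hgadj (hc.hS j) hh'.1 (hne j) (hc.ycl 0) (he3 j hj) hh'.2
    · intro j hj
      refine Or.inr (Or.inr ⟨by simp, ?_⟩)
      exact ⟨y 0, z, he1, hh', ⟨hc.hS j, he4 j hj⟩⟩
  · intro hh'
    have hsl := s.isLt
    by_cases hsa : (s : ℕ) < a
    · refine fin _ (a : ℕ) hal (skelI h hc.hinj hc.hS (s : ℕ) (by omega) h' hh'.1 hn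
      (fun i : ℕ => if i = (a : ℕ) - 1 then 2 else 1) _ hlk
        ?_ ?_ ?_ ?_)
      · intro j hj
        rw [if_neg (by omega), if_neg (by omega)]
      · intro j hj _
        by_cases hja : j + 1 = (a : ℕ)
        · rw [if_pos hja, if_pos (by omega)]
        · rw [if_neg hja, if_neg (by omega)]
      · intro j hj
        have : (if (j : ℕ) = (a : ℕ) then 2 else 1) = 1 := by rw [if_neg (by omega)]
        refine Or.inr (Or.inl ⟨this, ?_⟩)
        exact hgadj (hc.hS j) hh'.1 (hne j) (hc.ycl s.succ) (hc.lef j s (by omega) hsa) hh'.2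
      · intro j hj
        have hjs : j = s := Fin.ext hj
        subst hjs
        have : (if (j : ℕ) = (a : ℕ) then 2 else 1) = 1 := by rw [if_neg (by omega)]
        refine Or.inr (Or.inl ⟨this, ?_⟩)
        exact hgadj hh'.1 (hc.hS j) (hne j).symm (hc.ycl j.succ) hh'.2 (hc.mat j)
    · refine fin _ ((a : ℕ) - 1) (by omega) (skelI h hc.hinj hc.hS ((s : ℕ) + 1) (by omega) h'
        hh'.1 hn (fun i : ℕ => if i = (a : ℕ) - 1 then 2 else 1) _ hlk ?_ ?_ ?_ ?_)
      · intro j hj
        rfl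
      · intro j hj _
        rw [if_neg (by omega), if_neg (by omega)]
      · intro j hj
        have hjs : j = s := Fin.ext (by omega)
        subst hjs
        have : (if (j : ℕ) = (a : ℕ) - 1 then 2 else 1) = 1 := by rw [if_neg (by omega)]
        refine Or.inr (Or.inl ⟨this, ?_⟩)
        exact hgadj (hc.hS j) hh'.1 (hne j) (hc.ycl j.succ) (hc.mat j) hh'.2
      · intro j hj
        have : (if (s : ℕ) + 1 = (a : ℕ) - 1 then 2 else 1) = 1 := by rw [if_neg (by omega)]
        refine Or.inr (Or.inl ⟨this, ?_⟩)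
        exact hgadj hh'.1 (hc.hS j) (hne j).symm (hc.ycl s.succ) hh'.2
          (hc.rig s j hj (by omega))

end Pool.Agent.Y641.PK
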