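import Mathlib
import Pool.Agent.Y494.PK.Stm2
import Pool.Agent.Y641.PK.Sub

/-!
Transfer to types, second kind.
-/

namespace Pool.Agent.Y641.PK

open Classical
open Pool.Agent.Y494.PK

variable {V : Type}

/-- common data of the configurations of the second kind -/
structure Cf (G : SimpleGraph V) (r : ℕ) (S L : Set V) (x : Fin (r + 1) → V)
    (t : Equiv.Perm (Fin (r + 1))) (h : Fin r → V) : Prop where
  hinj : Function.Injective h
  hS : ∀ j, h j ∈ S
  mat : ∀ j : Fin r, G.Adj (h j) (x (t j.succ))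
  sub : ∀ j, Ty G S (x j) ⊆ Set.range h
  cl : ∀ j, Cl G (r + 1) S L (x j)
  e0 : ∀ a ∈ Ty G S (x (t 0)), PE G (r + 1) S L a

lemma Cf.range_sub {G : SimpleGraph V} {r : ℕ} {S L : Set V} {x : Fin (r + 1) → V}
    {t t' : Equiv.Perm (Fin (r + 1))} {h h' : Fin r → V} (H : Cf G r S L x t h)
    (H' : Cf G r S L x t' h') : Set.range h ⊆ Set.range h' := by
  rintro v ⟨j, rfl⟩
  exact H'.sub _ ⟨H.hS j, H.mat j⟩

lemma Cf.range_eq {G : SimpleGraph V} {r : ℕ} {S L : Set V} {x : Fin (r + 1) → V}
    {t t' : Equiv.Perm (Fin (r + 1))} {h h' : Fin r → V} (H : Cf G r S L x t h)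
    (H' : Cf G r S L x t' h') : Set.range h = Set.range h' :=
  Set.Subset.antisymm (H.range_sub H') (H'.range_sub H)

lemma cfE [Fintype V] (hE' : S_SUBE) {G : SimpleGraph V} {r : ℕ} {S L : Set V}
    (hE : Env G (r + 1) S L) {x : Fin (r + 1) → V} {t : Equiv.Perm (Fin (r + 1))}
    {h : Fin r → V} (hm : (x ∘ t, h) ∈ Ec G r S L) : Cf G r S L x t h := by
  have hc : LVE G S L (x ∘ t) h := hm
  have hs := hE' V G r S L hE _ _ hm
  obtain ⟨e', he1, -, -⟩ := hc.ex
  refine ⟨hc.hinj, hc.hS, hc.mat, ?_, ?_, ?_⟩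
  · intro j
    have := hs (t.symm j)
    simpa using this
  · intro j
    have := hc.ycl (t.symm j)
    simpa using this
  · intro a ha
    exact ⟨_, e', he1, ha⟩

lemma cfM [Fintype V] (hM' : S_SUBM) {G : SimpleGraph V} {r : ℕ} {S L : Set V}
    (hE : Env G (r + 1) S L) {x : Fin (r + 1) → V} {t : Equiv.Perm (Fin (r + 1))}
    {h : Fin r → V} {a : Fin r} (hm : (x ∘ t, h, a) ∈ Mc G r S L) : Cf G r S L x t h := by
  have hc : LVM G S L (x ∘ t) h (a : ℕ) := hm
  have hs := hM' V G r S L hE _ _ _ hm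
  obtain ⟨z, he1, -, -⟩ := hc.ex
  refine ⟨hc.hinj, hc.hS, hc.mat, ?_, ?_, ?_⟩
  · intro j
    have := hs (t.symm j)
    simpa using this
  · intro j
    have := hc.ycl (t.symm j)
    simpa using this
  · intro a ha
    exact ⟨_, z, he1, ha⟩

lemma pe_of_plk {G : SimpleGraph V} {l : ℕ} {S L : Set V} {a b : V} (h : PLk G l S L a b) :
    PE G l S L a ∧ PE G l S L b := by
  obtain ⟨x, z, h1, h2, h3⟩ := h
  exact ⟨⟨x, z, h1, h2⟩, ⟨z, x, clp_symm h1, h3⟩⟩

/-- no chain of `r` hubs with both ends in the set of pair ends -/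
lemma core1 [Fintype V] (h2 : S_CAP2) {G : SimpleGraph V} {r : ℕ} {S L : Set V}
    (hE : Env G (r + 1) S L) {h : Fin r → V} (hinj : Function.Injective h) (hS : ∀ j, h j ∈ S)
    (hc : ∀ j k : Fin r, (k : ℕ) = j + 1 → (HG G (r + 1) S L).Adj (h j) (h k))
    (hf : ∀ j : Fin r, (j : ℕ) = 0 → PE G (r + 1) S L (h j))
    (hl : ∀ j : Fin r, (j : ℕ) + 1 = r → PE G (r + 1) S L (h j)) : False := by
  have hr : 3 ≤ r := by have := hE.hl; omega
  have sk : Skel G (r + 1) S L h (fun _ => 1) 2 :=
    ⟨by omega, hinj, hS, fun j k hjk => Or.inr (Or.inl ⟨rfl, hc j k hjk⟩), Or.inr ⟨rfl, hl⟩⟩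
  have hn : SkN r (fun _ => 1) 2 = 2 * r + 1 := by
    unfold SkN
    simp
    omega
  have key := h2 V G (r + 1) S L hE r _ _ _ sk hf (by rw [hn]; omega)
  rw [hn] at key
  omega

lemma hyp2 [Fintype V] (h1 : S_CAP1) (h2 : S_CAP2) {G : SimpleGraph V} {r : ℕ} {S L : Set V}
    (hE : Env G (r + 1) S L) {Q : Set V} (hQS : Q ⊆ S) :
    Hyp2 r ((HG G (r + 1) S L).induce Q) {q | PE G (r + 1) S L (q : V)}
      (fun a b => PLk G (r + 1) S L (a : V) (b : V)) := by
  have hr : 3 ≤ r := by have := hE.hl; omega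
  have hinj : ∀ e : Fin r ≃ Q, Function.Injective (fun j => (e j : V)) := fun e =>
    Subtype.val_injective.comp e.injective
  refine ⟨fun a b hab => pe_of_plk hab, ?_, ?_, ?_⟩
  · intro e he j k hj hk hu
    refine core1 h2 hE (hinj e) (fun i => hQS (e i).2) (fun i i' hii => he i i' hii) ?_ ?_
    · intro i hi
      have : i = j := Fin.ext (by omega)
      rw [this]
      exact hu.1
    · intro i hi
      have : i = k := Fin.ext (by omega)
      rw [this]
      exact hu.2
  · intro e a ha har hadj hpl j k hj hk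
    have hlk : ∀ j k : Fin r, (k : ℕ) = j + 1 →
        Lk G (r + 1) S L ((fun i : ℕ => if i = a - 1 then 2 else 1) j) (e j : V) (e k : V) := by
      intro j k hjk
      by_cases hka : (k : ℕ) = a
      · have : (if (j : ℕ) = a - 1 then 2 else 1) = 2 := by rw [if_pos (by omega)]
        exact Or.inr (Or.inr ⟨this, hpl j k hjk hka⟩)
      · have : (if (j : ℕ) = a - 1 then 2 else 1) = 1 := by rw [if_neg (by omega)]
        exact Or.inr (Or.inl ⟨this, hadj j k hjk hka⟩)
    have hsum : ∀ d, SkN r (fun i : ℕ => if i = a - 1 then 2 else 1) d = r + r + d := by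
      intro d
      unfold SkN
      rw [sum_one_two (r - 1) (a - 1) (by omega)]
      omega
    refine ⟨?_, ?_, ?_⟩
    · intro hu
      have sk : Skel G (r + 1) S L (fun j => (e j : V))
          (fun i : ℕ => if i = a - 1 then 2 else 1) 1 :=
        ⟨by omega, hinj e, fun i => hQS (e i).2, hlk, Or.inl rfl⟩
      have key := h2 V G (r + 1) S L hE r _ _ _ sk ?_ (by rw [hsum]; omega)
      · rw [hsum] at key
        omega
      · intro i hi
        have : i = j := Fin.ext (by omega)
        rw [this]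
        exact hu
    · intro hu
      have sk : Skel G (r + 1) S L (fun j => (e j : V))
          (fun i : ℕ => if i = a - 1 then 2 else 1) 2 := by
        refine ⟨by omega, hinj e, fun i => hQS (e i).2, hlk, Or.inr ⟨rfl, ?_⟩⟩
        intro i hi
        have : i = k := Fin.ext (by omega)
        rw [this]
        exact hu
      have key := h1 V G (r + 1) S L hE r _ _ _ sk (by rw [hsum]; omega)
      rw [hsum] at key
      omega
    · intro hjk
      -- rotate
      have hmod : ∀ i : Fin r, ((i : ℕ) + a) % r < r := fun i => Nat.mod_lt _ (by omega)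
      have hlow : ∀ i : Fin r, (i : ℕ) + a < r → ((i : ℕ) + a) % r = (i : ℕ) + a :=
        fun i hi => Nat.mod_eq_of_lt hi
      have hhigh : ∀ i : Fin r, r ≤ (i : ℕ) + a → ((i : ℕ) + a) % r = (i : ℕ) + a - r := by
        intro i hi
        have := i.isLt
        rw [Nat.mod_eq_sub_mod hi, Nat.mod_eq_of_lt (by omega)]
      refine core1 h2 hE (h := fun i => (e ⟨((i : ℕ) + a) % r, hmod i⟩ : V)) ?_ ?_ ?_ ?_ ?_
      · intro i i' hii
        have := congrArg Fin.val (hinj e hii)
        simp only at this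
        apply Fin.ext
        have h1 := i.isLt
        have h2 := i'.isLt
        rcases Nat.lt_or_ge ((i : ℕ) + a) r with c1 | c1 <;>
          rcases Nat.lt_or_ge ((i' : ℕ) + a) r with c2 | c2
        · rw [hlow i c1, hlow i' c2] at this
          omega
        · rw [hlow i c1, hhigh i' c2] at this
          omega
        · rw [hhigh i c1, hlow i' c2] at this
          omega
        · rw [hhigh i c1, hhigh i' c2] at this
          omega
      · intro i
        exact hQS (e _).2
      · intro i i' hii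
        have hi' := i'.isLt
        have hi := i.isLt
        rcases Nat.lt_or_ge ((i' : ℕ) + a) r with c | c
        · have e1 := hlow i (by omega)
          have e2 := hlow i' c
          exact hadj ⟨((i : ℕ) + a) % r, hmod i⟩ ⟨((i' : ℕ) + a) % r, hmod i'⟩
            (by simp only [e1, e2]; omega) (by simp only [e2]; omega)
        · rcases Nat.lt_or_ge ((i : ℕ) + a) r with c' | c'
          · have e1 := hlow i c'
            have e2 := hhigh i' c
            have f1 : (⟨((i : ℕ) + a) % r, hmod i⟩ : Fin r) = k := Fin.ext (by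
              simp only [e1]; omega)
            have f2 : (⟨((i' : ℕ) + a) % r, hmod i'⟩ : Fin r) = j := Fin.ext (by
              simp only [e2]; omega)
            show (HG G (r + 1) S L).Adj (e ⟨((i : ℕ) + a) % r, hmod i⟩ : V)
              (e ⟨((i' : ℕ) + a) % r, hmod i'⟩ : V)
            rw [f1, f2]
            exact SimpleGraph.Adj.symm hjk
          · have e1 := hhigh i c'
            have e2 := hhigh i' c
            exact hadj ⟨((i : ℕ) + a) % r, hmod i⟩ ⟨((i' : ℕ) + a) % r, hmod i'⟩
              (by simp only [e1, e2]; omega) (by simp only [e2]; omega)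
      · intro i hi
        have e1 := hlow i (by omega)
        exact (pe_of_plk (hpl ⟨a - 1, by omega⟩ ⟨((i : ℕ) + a) % r, hmod i⟩
          (by simp only [e1]; omega) (by simp only [e1]; omega))).2
      · intro i hi
        have e1 := hhigh i (by omega)
        have f1 : (⟨((i : ℕ) + a) % r, hmod i⟩ : Fin r) = ⟨a - 1, by omega⟩ := Fin.ext (by
          simp only [e1]; omega)
        show PE G (r + 1) S L (e ⟨((i : ℕ) + a) % r, hmod i⟩ : V)
        rw [f1]
        exact (pe_of_plk (hpl ⟨a - 1, by omega⟩ ⟨a, har⟩ (by simp only; omega) rfl)).1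
  · intro e he j k j' k' hjk hjk' hne hp hp'
    have hk := k.isLt
    have hk' := k'.isLt
    have sk : Skel G (r + 1) S L (fun j => (e j : V))
        (fun i : ℕ => if i = j ∨ i = j' then 2 else 1) 1 := by
      refine ⟨by omega, hinj e, fun i => hQS (e i).2, ?_, Or.inl rfl⟩
      intro i i' hii
      by_cases h1 : i = j
      · subst h1
        have : i' = k := Fin.ext (by omega)
        subst this
        exact Or.inr (Or.inr ⟨by simp, hp⟩)
      · by_cases h2 : i = j'
        · subst h2
          have : i' = k' := Fin.ext (by omega)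
          subst this
          exact Or.inr (Or.inr ⟨by simp, hp'⟩)
        · refine Or.inr (Or.inl ⟨?_, he i i' hii⟩)
          have a1 : ¬ (i : ℕ) = j := fun h => h1 (Fin.ext h)
          have a2 : ¬ (i : ℕ) = j' := fun h => h2 (Fin.ext h)
          simp [a1, a2]
    have hnn : (j : ℕ) ≠ j' := fun h => hne (Fin.ext h)
    have hsum : SkN r (fun i : ℕ => if i = j ∨ i = j' then 2 else 1) 1 = 2 * r + 2 := by
      unfold SkN
      have : ∀ i ∈ Finset.range (r - 1), (if i = (j : ℕ) ∨ i = (j' : ℕ) then 2 else 1) =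
          1 + ((if i = (j : ℕ) then 1 else 0) + (if i = (j' : ℕ) then 1 else 0)) := by
        intro i _
        by_cases b1 : i = (j : ℕ)
        · subst b1
          simp [hnn]
        · by_cases b2 : i = (j' : ℕ)
          · simp [b2, hnn.symm]
          · simp [b1, b2]
      rw [Finset.sum_congr rfl this, Finset.sum_add_distrib, Finset.sum_add_distrib,
        Finset.sum_ite_eq', Finset.sum_ite_eq', if_pos (Finset.mem_range.mpr (by omega)),
        if_pos (Finset.mem_range.mpr (by omega))]
      simp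
      omega
    have key := h1 V G (r + 1) S L hE r _ _ _ sk (by rw [hsum]; omega)
    rw [hsum] at key
    omega

/-- the enumeration given by a configuration -/
lemma enum {r : ℕ} {Q : Set V} {h : Fin r → V} (hinj : Function.Injective h)
    (hr : Set.range h = Q) : ∃ e : Fin r ≃ Q, (fun j => (e j : V)) = h := by
  subst hr
  exact ⟨Equiv.ofInjective h hinj, rfl⟩

theorem tq2 (h1 : S_CAP1) (h2 : S_CAP2) (hSE : S_SUBE) (hSM : S_SUBM) : S_TQ2 := by
  intro V _ G r S L hE x hx
  have hr : 3 ≤ r := by have := hE.hl; omega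
  obtain ⟨t0, h0, H0⟩ : ∃ t0 h0, Cf G r S L x t0 h0 := by
    rcases hx with hx | hx
    · obtain ⟨p, hp⟩ := Set.nonempty_of_ncard_ne_zero hx
      exact ⟨p.1, p.2, cfE hSE hE hp⟩
    · obtain ⟨p, hp⟩ := Set.nonempty_of_ncard_ne_zero hx
      exact ⟨p.1, p.2.1, cfM hSM hE (a := p.2.2) hp⟩
  have hQS : Set.range h0 ⊆ S := by
    rintro v ⟨j, rfl⟩
    exact H0.hS j
  refine ⟨Set.range h0, ?_, H0.sub, ?_, ?_, hyp2 h1 h2 hE hQS, ?_, ?_, t0 0, H0.e0⟩
  · rw [← Set.image_univ, Set.ncard_image_of_injective _ H0.hinj, Set.ncard_univ]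
    simp
  · rintro q ⟨j, rfl⟩
    exact ⟨t0 j.succ, H0.hS j, H0.mat j⟩
  · intro j a ha b hb hab
    have ha : (a : V) ∈ Ty G S (x j) := ha
    have hb : (b : V) ∈ Ty G S (x j) := hb
    exact hgadj ha.1 hb.1 (fun h => hab (Subtype.ext h)) (H0.cl j) ha.2 hb.2
  · have hsub : {p : Equiv.Perm (Fin (r + 1)) × (Fin r → V) | (x ∘ p.1, p.2) ∈ Ec G r S L} ⊆
        (fun p : (Fin r ≃ Set.range h0) × Equiv.Perm (Fin (r + 1)) =>
          ((p.2, fun j => (p.1 j : V)) : Equiv.Perm (Fin (r + 1)) × (Fin r → V))) ''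
        {p : (Fin r ≃ Set.range h0) × Equiv.Perm (Fin (r + 1)) |
          LeadE (TQ G S x (Set.range h0)) {q | PE G (r + 1) S L (q : V)} p.1 p.2} := by
      rintro ⟨t, h⟩ hp
      have hp : (x ∘ t, h) ∈ Ec G r S L := hp
      have H := cfE hSE hE hp
      obtain ⟨e, he⟩ := enum H.hinj (H.range_eq H0)
      have hc : LVE G S L (x ∘ t) h := hp
      refine ⟨(e, t), ?_, by simp only [he]⟩
      have hej : ∀ j, (e j : V) = h j := fun j => congrFun he j
      obtain ⟨e', he1, he2, he3⟩ := hc.ex
      refine ⟨?_, ?_, ?_, ?_⟩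
      · intro q hq
        exact H.e0 _ hq
      · intro j hj
        show PE G (r + 1) S L (e j : V)
        rw [hej]
        exact ⟨e', _, clp_symm he1, H.hS j, he3 j hj⟩
      · intro j
        show (e j : V) ∈ Ty G S (x (t j.succ))
        rw [hej]
        exact ⟨H.hS j, H.mat j⟩
      · intro j k hjk
        show (e k : V) ∈ Ty G S (x (t j.succ))
        rw [hej]
        exact ⟨H.hS k, hc.rig j k hjk⟩
    exact (Set.ncard_le_ncard hsub (Set.toFinite _)).trans (Set.ncard_image_le (Set.toFinite _))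
  · have hsub : {p : Equiv.Perm (Fin (r + 1)) × (Fin r → V) × Fin r |
          (x ∘ p.1, p.2) ∈ Mc G r S L} ⊆
        (fun p : (Fin r ≃ Set.range h0) × Fin r × Equiv.Perm (Fin (r + 1)) =>
          ((p.2.2, (fun j => (p.1 j : V)), p.2.1) :
            Equiv.Perm (Fin (r + 1)) × (Fin r → V) × Fin r)) ''
        {p : (Fin r ≃ Set.range h0) × Fin r × Equiv.Perm (Fin (r + 1)) |
          LeadM (TQ G S x (Set.range h0)) {q | PE G (r + 1) S L (q : V)}
            (fun a b => PLk G (r + 1) S L (a : V) (b : V)) p.1 (p.2.1 : ℕ) p.2.2} := by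
      rintro ⟨t, h, a⟩ hp
      have hp : (x ∘ t, h, a) ∈ Mc G r S L := hp
      have H := cfM hSM hE hp
      obtain ⟨e, he⟩ := enum H.hinj (H.range_eq H0)
      have hc : LVM G S L (x ∘ t) h (a : ℕ) := hp
      refine ⟨(e, a, t), ?_, by simp only [he]⟩
      have hej : ∀ j, (e j : V) = h j := fun j => congrFun he j
      obtain ⟨z, he1, he2, he3, he4⟩ := hc.ex
      refine ⟨hc.a1, hc.a2, ?_, ?_, ?_, ?_, ?_⟩
      · intro q hq
        exact H.e0 _ hq
      · intro j k hjk hka
        have hka : (k : ℕ) = (a : ℕ) := hka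
        show PLk G (r + 1) S L (e j : V) (e k : V)
        rw [hej, hej]
        exact ⟨_, z, he1, ⟨H.hS j, he3 j (by omega)⟩, ⟨H.hS k, he4 k hka⟩⟩
      · intro j
        show (e j : V) ∈ Ty G S (x (t j.succ))
        rw [hej]
        exact ⟨H.hS j, H.mat j⟩
      · intro j k hjk hka
        show (e j : V) ∈ Ty G S (x (t k.succ))
        rw [hej]
        exact ⟨H.hS j, hc.lef j k hjk hka⟩
      · intro j k hjk haj
        show (e k : V) ∈ Ty G S (x (t j.succ))
        rw [hej]
        exact ⟨H.hS k, hc.rig j k hjk haj⟩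
    exact (Set.ncard_le_ncard hsub (Set.toFinite _)).trans (Set.ncard_image_le (Set.toFinite _))

end Pool.Agent.Y641.PK
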