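import Mathlib
import Pool.Agent.Y494.PK.Stm

/-!
Directed paths of the second pattern, remaining part.
-/

namespace Pool.Agent.Y641.PK

open Classical
open Pool.Agent.Y494.PK

variable {V : Type}

/-- decoding of a path from its pair, hubs and lows -/
def dec {r : ℕ} (q : Fin (r + 1) × (V × V) × (Fin r → V) × (Fin r → V)) :
    (Fin (r + 1) → V) × (Fin (r + 1) → V) :=
  (Fin.insertNth (α := fun _ => V) q.1 q.2.1.1
    (fun i => if q.1.succAbove i < q.1 then q.2.2.2 i else q.2.2.1 i),
   Fin.insertNth (α := fun _ => V) q.1 q.2.1.2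
    (fun i => if q.1.succAbove i < q.1 then q.2.2.1 i else q.2.2.2 i))

/-- the hub of index `j` -/
def hubf {r : ℕ} (u w : Fin (r + 1) → V) (a j : Fin (r + 1)) : V := if j < a then w j else u j

/-- the low of index `j` -/
def lowf {r : ℕ} (u w : Fin (r + 1) → V) (a j : Fin (r + 1)) : V := if j < a then u j else w j

lemma dec_enc {r : ℕ} (u w : Fin (r + 1) → V) (a : Fin (r + 1)) :
    dec (a, (u a, w a), (fun i => hubf u w a (a.succAbove i)),
      (fun i => lowf u w a (a.succAbove i))) = (u, w) := by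
  unfold dec
  simp only
  refine Prod.ext ?_ ?_
  · simp only
    funext j
    by_cases hj : j = a
    · subst hj
      simp
    · obtain ⟨i, rfl⟩ := Fin.exists_succAbove_eq hj
      rw [Fin.insertNth_apply_succAbove]
      unfold hubf lowf
      split_ifs <;> rfl
  · simp only
    funext j
    by_cases hj : j = a
    · subst hj
      simp
    · obtain ⟨i, rfl⟩ := Fin.exists_succAbove_eq hj
      rw [Fin.insertNth_apply_succAbove]
      unfold hubf lowf
      split_ifs <;> rfl

lemma ncard_pi [Fintype V] (S : Set V) (r : ℕ) :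
    {f : Fin r → V | ∀ j, f j ∈ S}.ncard = S.ncard ^ r := by
  have : {f : Fin r → V | ∀ j, f j ∈ S} =
      ((Fintype.piFinset (fun _ : Fin r => S.toFinset) : Finset (Fin r → V)) :
        Set (Fin r → V)) := by
    ext f
    simp
  rw [this, Set.ncard_coe_finset, Fintype.card_piFinset]
  simp [Set.ncard_eq_toFinset_card']

lemma ncard_one [Fintype V] (U : Set V) (r : ℕ) (i : Fin (r + 1)) :
    {f : Fin (r + 1) → V | f i ∈ U}.ncard ≤ U.ncard * Fintype.card V ^ r := by
  have hsub : {f : Fin (r + 1) → V | f i ∈ U} ⊆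
      (fun p : V × (Fin r → V) => Fin.insertNth (α := fun _ => V) i p.1 p.2) ''
        (U ×ˢ (Set.univ : Set (Fin r → V))) := by
    intro f hf
    refine ⟨(f i, fun j => f (i.succAbove j)), ⟨hf, Set.mem_univ _⟩, ?_⟩
    simp only
    funext j
    by_cases hj : j = i
    · subst hj
      simp
    · obtain ⟨k, rfl⟩ := Fin.exists_succAbove_eq hj
      rw [Fin.insertNth_apply_succAbove]
  refine (Set.ncard_le_ncard hsub (Set.toFinite _)).trans ?_
  refine (Set.ncard_image_le (Set.toFinite _)).trans ?_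
  rw [Set.ncard_prod, Set.ncard_univ]
  simp

lemma ncard_ex [Fintype V] (U : Set V) (r : ℕ) :
    {f : Fin r → V | ∃ i, f i ∈ U}.ncard ≤ r * U.ncard * Fintype.card V ^ (r - 1) := by
  cases r with
  | zero =>
    have : {f : Fin 0 → V | ∃ i, f i ∈ U} = ∅ := by
      ext f
      simp
    rw [this]
    simp
  | succ r =>
    have : {f : Fin (r + 1) → V | ∃ i, f i ∈ U} = ⋃ i, {f : Fin (r + 1) → V | f i ∈ U} := by
      ext f
      simp
    rw [this]
    refine (Set.ncard_iUnion_le_of_fintype _).trans ?_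
    refine (Finset.sum_le_sum fun i _ => ncard_one U r i).trans ?_
    rw [Finset.sum_const, Finset.card_univ, Fintype.card_fin, smul_eq_mul, mul_assoc]
    simp

lemma cl_of_clp [Fintype V] {G : SimpleGraph V} {l : ℕ} {S L : Set V} {x z : V}
    (h : Clp G l S L x z) : Cl G l S L x ∧ Cl G l S L z := by
  obtain ⟨h1, h2, h3, P, Z, h4, h5⟩ := h
  have aux : ∀ (R : Fin (8 * l) → V) (x : V), (∀ i, R i ∈ L ∧ Ty G S (R i) = Ty G S x) →
      (∀ i j, i ≠ j → R i ≠ R j) → 8 * l ≤ {y | y ∈ L ∧ Ty G S y = Ty G S x}.ncard := by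
    intro R x hR hi
    have hinj : Function.Injective R := fun i j hij => by
      by_contra hne
      exact hi i j hne hij
    have hsub : Set.range R ⊆ {y | y ∈ L ∧ Ty G S y = Ty G S x} := by
      rintro y ⟨i, rfl⟩
      exact hR i
    have hc : (Set.range R).ncard = 8 * l := by
      rw [← Set.image_univ, Set.ncard_image_of_injective _ hinj, Set.ncard_univ]
      simp
    rw [← hc]
    exact Set.ncard_le_ncard hsub (Set.toFinite _)
  refine ⟨⟨h1, aux P x (fun i => ?_) (fun i j hij => (h5 i j hij).1)⟩,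
    ⟨h2, aux Z z (fun i => ?_) (fun i j hij => (h5 i j hij).2.1)⟩⟩
  · exact ⟨(h4 i).1, (h4 i).2.2.2.1⟩
  · exact ⟨(h4 i).2.1, (h4 i).2.2.2.2⟩

theorem tr3 (hA3 : S_A3) : S_TR3 := by
  intro V _ G r S L hr hN hdis
  set UP : Set (V × V) := {p : V × V | p.1 ∈ L ∧ p.2 ∈ L ∧ G.Adj p.1 p.2 ∧
        ¬ Clp G (r + 1) S L p.1 p.2} with hUP
  set US : Set V := {x | x ∈ L ∧ ¬ Cl G (r + 1) S L x} with hUS
  set PS : Set (Fin r → V) := {f : Fin r → V | ∀ j, f j ∈ S} with hPS
  set EX : Set (Fin r → V) := {f : Fin r → V | ∃ i, f i ∈ US} with hEX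
  set AD : Set (V × V) := {p : V × V | G.Adj p.1 p.2} with hAD
  have hsub : {p : (Fin (r + 1) → V) × (Fin (r + 1) → V) | IsDP G (r + 1) p.1 p.2 ∧
      (∃ a : Fin (r + 1), Pat2 S L p.1 p.2 a) ∧
      ¬ ∃ a : Fin (r + 1), Pat2 S L p.1 p.2 a ∧ Clp G (r + 1) S L (p.1 a) (p.2 a) ∧
        (∀ j, p.1 j ∈ L → Cl G (r + 1) S L (p.1 j)) ∧
        (∀ j, p.2 j ∈ L → Cl G (r + 1) S L (p.2 j))} ⊆
      dec '' ((Set.univ : Set (Fin (r + 1))) ×ˢ UP ×ˢ PS ×ˢ (Set.univ : Set (Fin r → V))) ∪
      dec '' ((Set.univ : Set (Fin (r + 1))) ×ˢ AD ×ˢ PS ×ˢ EX) := by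
    rintro ⟨u, w⟩ ⟨h1, ⟨a, ha⟩, h2⟩
    have h1 : IsDP G (r + 1) u w := h1
    have ha : Pat2 S L u w a := ha
    have hhub : (fun i => hubf u w a (a.succAbove i)) ∈ PS := by
      intro i
      show (if a.succAbove i < a then w (a.succAbove i) else u (a.succAbove i)) ∈ S
      have hne := Fin.succAbove_ne a i
      split_ifs with hlt
      · exact ((ha (a.succAbove i)).1 hlt).2
      · have : a < a.succAbove i := lt_of_le_of_ne (not_lt.mp hlt) hne.symm
        exact ((ha (a.succAbove i)).2.2 this).1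
    by_cases hcl : Clp G (r + 1) S L (u a) (w a)
    · right
      refine ⟨(a, (u a, w a), (fun i => hubf u w a (a.succAbove i)),
        (fun i => lowf u w a (a.succAbove i))), ⟨Set.mem_univ _, h1.mat a, hhub, ?_⟩,
        dec_enc u w a⟩
      by_contra hne
      apply h2
      have hall : ∀ i, ¬ lowf u w a (a.succAbove i) ∈ US := by
        intro i hi
        exact hne ⟨i, hi⟩
      have hlow : ∀ j, j ≠ a → lowf u w a j ∈ L → Cl G (r + 1) S L (lowf u w a j) := by
        intro j hj hL
        obtain ⟨i, rfl⟩ := Fin.exists_succAbove_eq hj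
        by_contra hc
        exact hall i ⟨hL, hc⟩
      refine ⟨a, ha, hcl, ?_, ?_⟩
      · intro j hj
        have hj : u j ∈ L := hj
        rcases lt_trichotomy j a with hja | hja | hja
        · have := hlow j hja.ne
          unfold lowf at this
          rw [if_pos hja] at this
          exact this hj
        · subst hja
          exact (cl_of_clp hcl).1
        · exact absurd hj (hdis _ ((ha j).2.2 hja).1)
      · intro j hj
        have hj : w j ∈ L := hj
        rcases lt_trichotomy j a with hja | hja | hja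
        · exact absurd hj (hdis _ ((ha j).1 hja).2)
        · subst hja
          exact (cl_of_clp hcl).2
        · have := hlow j hja.ne'
          unfold lowf at this
          rw [if_neg (not_lt.mpr hja.le)] at this
          exact this hj
    · left
      exact ⟨(a, (u a, w a), (fun i => hubf u w a (a.succAbove i)),
        (fun i => lowf u w a (a.succAbove i))),
        ⟨Set.mem_univ _, ⟨((ha a).2.1 rfl).1, ((ha a).2.1 rfl).2, h1.mat a, hcl⟩, hhub,
          Set.mem_univ _⟩, dec_enc u w a⟩
  refine (Set.ncard_le_ncard hsub (Set.toFinite _)).trans ?_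
  refine (Set.ncard_union_le _ _).trans (Nat.add_le_add ?_ ?_)
  · refine (Set.ncard_image_le (Set.toFinite _)).trans ?_
    rw [Set.ncard_prod, Set.ncard_prod, Set.ncard_prod, Set.ncard_univ, Set.ncard_univ, hPS,
      ncard_pi]
    simp only [Nat.card_eq_fintype_card, Fintype.card_fin, Fintype.card_fun]
    apply le_of_eq
    ring
  · refine (Set.ncard_image_le (Set.toFinite _)).trans ?_
    rw [Set.ncard_prod, Set.ncard_prod, Set.ncard_prod, Set.ncard_univ, hPS, ncard_pi]
    simp only [Nat.card_eq_fintype_card, Fintype.card_fin]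
    have e1 : AD.ncard ≤ 4 * (r + 1) * Fintype.card V := hA3 V G (r + 1) hN
    have e2 : EX.ncard ≤ r * US.ncard * Fintype.card V ^ (r - 1) := ncard_ex US r
    calc (r + 1) * (AD.ncard * (S.ncard ^ r * EX.ncard))
        ≤ (r + 1) * ((4 * (r + 1) * Fintype.card V) *
          (S.ncard ^ r * (r * US.ncard * Fintype.card V ^ (r - 1)))) := by gcongr
      _ = _ := by ring

end Pool.Agent.Y641.PK
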